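import Pool.Agent.H30MS.Space

/-!
Codes, compatible functions and the extension theorem.
-/

set_option autoImplicit false

namespace Pool.Agent.H30MS

noncomputable section

open Set Classical

/-- Codes: a countable family of codes, a radius and a functional of functions. -/
inductive Code : Type
  | base : Code
  | node : (ℕ → Code) → ℝ → (((ℕ →₀ ℝ) → ℝ) → ℝ) → Code

/-- The space `ℓ¹` over the codes -/
abbrev E : Type := L1 Code

/-- immediate subcodes -/
def sub : Code → Set Code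
  | Code.base => ∅
  | Code.node s _ _ => Set.range s

theorem sub_wf : WellFounded (fun a b : Code => a ∈ sub b) := by
  constructor
  intro c
  induction c with
  | base => exact ⟨_, fun y hy => absurd hy (by simp [sub])⟩
  | node s r Φ ih =>
    refine ⟨_, fun y hy => ?_⟩
    obtain ⟨n, rfl⟩ := (show y ∈ Set.range s from hy)
    exact ih n

/-- finite linear combinations of the basis vectors at `s 0, s 1, ...` -/
def comb (s : ℕ → Code) : (ℕ →₀ ℝ) →ₗ[ℝ] E :=
  Finsupp.linearCombination ℝ (fun k => sgl (s k) (1 : ℝ))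

theorem comb_mem (s : ℕ → Code) (c : ℕ →₀ ℝ) : comb s c ∈ spt (Set.range s) := by
  unfold comb
  rw [Finsupp.linearCombination_apply]
  unfold Finsupp.sum
  exact Submodule.sum_mem _ fun k _ =>
    Submodule.smul_mem _ _ (sgl_mem_spt (Set.mem_range_self k) _)

/-- truncation to `[-|r|, |r|]` -/
def clamp (r t : ℝ) : ℝ := max (-|r|) (min |r| t)

theorem abs_clamp_le (r t : ℝ) : |clamp r t| ≤ |r| := by
  unfold clamp
  rw [abs_le]
  have h := abs_nonneg r
  constructor
  · exact le_max_left _ _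
  · exact max_le (by linarith) (min_le_left _ _)

theorem clamp_of_le {r t : ℝ} (h : |t| ≤ |r|) : clamp r t = t := by
  unfold clamp
  rw [abs_le] at h
  rw [min_eq_right h.2, max_eq_right h.1]

theorem clamp_zero (r : ℝ) : clamp r 0 = 0 := clamp_of_le (by simp)

/-- the radius of a code -/
def rad : Code → ℝ
  | Code.base => 0
  | Code.node _ r _ => |r|

theorem rad_nonneg (γ : Code) : 0 ≤ rad γ := by
  cases γ with
  | base => exact le_rfl
  | node s r Φ => exact abs_nonneg r

/-- the value prescribed by a code -/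
def val (g : E → ℝ) : Code → ℝ
  | Code.base => 0
  | Code.node s r Φ => clamp r (Φ (fun c => g (comb s c)) - Φ (fun _ => 0))

theorem abs_val_le (g : E → ℝ) (γ : Code) : |val g γ| ≤ rad γ := by
  cases γ with
  | base => simp [val, rad]
  | node s r Φ => exact abs_clamp_le _ _

theorem val_congr {g g' : E → ℝ} {γ : Code} (h : ∀ x ∈ spt (sub γ), g x = g' x) :
    val g γ = val g' γ := by
  cases γ with
  | base => rfl
  | node s r Φ =>
    have : (fun c => g (comb s c)) = (fun c => g' (comb s c)) := by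
      ext c
      exact h _ (comb_mem s c)
    simp only [val, this]

theorem val_zero {g : E → ℝ} {γ : Code} (h : ∀ x ∈ spt (sub γ), g x = 0) : val g γ = 0 := by
  rw [val_congr (g' := fun _ => 0) h]
  cases γ with
  | base => rfl
  | node s r Φ => simp [val, clamp_zero]

/-- the point attached to a code -/
def pt (γ : Code) : E := sgl γ (rad γ + 2)

theorem norm_pt_sub {γ : Code} {z : E} (hz : z γ = 0) : ‖pt γ - z‖ = rad γ + 2 + ‖z‖ := by
  unfold pt
  rw [norm_single_sub hz, abs_of_nonneg (by linarith [rad_nonneg γ])]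

/-- a set of codes is closed if it contains the subcodes of its members -/
def Clo (S : Set Code) : Prop := ∀ γ ∈ S, sub γ ⊆ S

/-- 1-Lipschitz functions that satisfy the constraints attached to the codes in `S` -/
structure Compat (S : Set Code) (g : E → ℝ) : Prop where
  lip : LipschitzWith 1 g
  zero : g 0 = 0
  con : ∀ γ ∈ S, γ ≠ Code.base → g (pt γ) = val g γ

theorem Compat.abs_sub_le {S : Set Code} {g : E → ℝ} (h : Compat S g) (x y : E) :
    |g x - g y| ≤ ‖x - y‖ := by
  have := h.lip.dist_le_mul x y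
  simpa [Real.dist_eq, dist_eq_norm] using this

theorem Compat.abs_le {S : Set Code} {g : E → ℝ} (h : Compat S g) (x : E) :
    |g x| ≤ ‖x‖ := by
  have := h.abs_sub_le x 0
  simpa [h.zero] using this

theorem Compat.congr {S : Set Code} {g g' : E → ℝ} (hS : Clo S) (h : Compat S g)
    (h' : LipschitzWith 1 g') (heq : ∀ x ∈ spt S, g' x = g x) : Compat S g' where
  lip := h'
  zero := by rw [heq 0 (Submodule.zero_mem _), h.zero]
  con := by
    intro γ hγ hb
    have hp : pt γ ∈ spt S := sgl_mem_spt hγ _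
    rw [heq _ hp, h.con γ hγ hb]
    exact val_congr fun x hx => (heq x (spt_mono (hS γ hγ) hx)).symm

/-- the Lipschitz condition on a set in terms of norms -/
theorem lipOn_iff {g : E → ℝ} {s : Set E} :
    LipschitzOnWith 1 g s ↔ ∀ x ∈ s, ∀ y ∈ s, |g x - g y| ≤ ‖x - y‖ := by
  rw [lipschitzOnWith_iff_dist_le_mul]
  simp [dist_eq_norm]

/-- one step of the extension -/
theorem ext_step {S : Set Code} (hS : Clo S) {g : E → ℝ} (hg : Compat S g) {D : Set E}
    {γ : Code} (hγ : γ ∉ S) (hsub : sub γ ⊆ S)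
    (hD : ∀ a ∈ D, |g a| + rad γ ≤ ‖pt γ - a‖) :
    ∃ g', Compat (insert γ S) g' ∧ (∀ x ∈ spt S, g' x = g x) ∧ (∀ x ∈ D, g' x = g x) ∧
      g' (pt γ) = val g' γ := by
  have hR := rad_nonneg γ
  have hγS : ∀ z ∈ spt S, z γ = 0 := fun z hz => hz γ hγ
  set h : E → ℝ := Function.update g (pt γ) (val g γ) with hh
  have hpt : h (pt γ) = val g γ := by simp [hh]
  have hptS : pt γ ∉ spt S := by
    intro hm
    have := hγS _ hm
    rw [pt, sgl_self] at this
    linarith
  have hhS : ∀ z ∈ spt S, h z = g z := by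
    intro z hz
    rw [hh, Function.update_of_ne]
    rintro rfl
    exact hptS hz
  have hhD : ∀ z ∈ D, h z = g z := by
    intro z hz
    by_cases hzp : z = pt γ
    · have h1 := hD z hz
      rw [hzp, sub_self, norm_zero] at h1
      have h2 := abs_val_le g γ
      have h3 : val g γ = 0 := abs_nonpos_iff.1 (by linarith [abs_nonneg (g (pt γ))])
      have h4 : g (pt γ) = 0 := abs_nonpos_iff.1 (by linarith [abs_nonneg (g (pt γ))])
      rw [hzp, hpt, h3, h4]
    · rw [hh, Function.update_of_ne hzp]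
  have key : ∀ a, (a ∈ spt S ∨ a ∈ D) → |val g γ - g a| ≤ ‖pt γ - a‖ := by
    intro a ha
    have h2 := abs_val_le g γ
    have h3 : |val g γ - g a| ≤ |val g γ| + |g a| := abs_sub _ _
    rcases ha with ha | ha
    · rw [norm_pt_sub (hγS a ha)]
      have := hg.abs_le a
      linarith
    · have := hD a ha
      linarith
  have hlip : LipschitzOnWith 1 h (insert (pt γ) ((spt S : Set E) ∪ D)) := by
    rw [lipOn_iff]
    have hU : ∀ a ∈ (spt S : Set E) ∪ D, h a = g a := by
      rintro a (ha | ha)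
      · exact hhS a ha
      · exact hhD a ha
    intro x hx y hy
    rcases hx with rfl | hx
    · rcases hy with rfl | hy
      · simp
      · rw [hpt, hU y hy]
        exact key y hy
    · rcases hy with rfl | hy
      · rw [hpt, hU x hx, abs_sub_comm, norm_sub_rev]
        exact key x hx
      · rw [hU x hx, hU y hy]
        exact hg.abs_sub_le x y
  obtain ⟨g', hg'lip, hg'eq⟩ := hlip.extend_real
  have e1 : ∀ x ∈ spt S, g' x = g x := by
    intro x hx
    rw [← hg'eq (Or.inr (Or.inl hx)), hhS x hx]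
  have e2 : ∀ x ∈ D, g' x = g x := by
    intro x hx
    rw [← hg'eq (Or.inr (Or.inr hx)), hhD x hx]
  have e3 : g' (pt γ) = val g' γ := by
    rw [← hg'eq (Or.inl rfl), hpt]
    exact val_congr fun x hx => (e1 x (spt_mono hsub hx)).symm
  refine ⟨g', ⟨hg'lip, ?_, ?_⟩, e1, e2, e3⟩
  · rw [e1 0 (Submodule.zero_mem _), hg.zero]
  · intro δ hδ hb
    rcases hδ with rfl | hδ
    · exact e3
    · exact (hg.congr hS hg'lip e1).con δ hδ hb

/-- the extension theorem -/
theorem ext_all {S₀ : Set Code} (hS₀ : Clo S₀) {g₀ : E → ℝ} (hg₀ : Compat S₀ g₀) (D : Set E)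
    (hD : ∀ a ∈ D, ∀ γ ∉ S₀, |g₀ a| + rad γ ≤ ‖pt γ - a‖) :
    ∃ g, Compat univ g ∧ (∀ x ∈ spt S₀, g x = g₀ x) ∧ (∀ x ∈ D, g x = g₀ x) := by
  -- the poset of partial extensions
  let P : Type := {q : Set Code × (E → ℝ) // S₀ ⊆ q.1 ∧ Clo q.1 ∧ Compat q.1 q.2 ∧
    (∀ x ∈ spt S₀, q.2 x = g₀ x) ∧ (∀ x ∈ D, q.2 x = g₀ x)}
  let r : P → P → Prop := fun q q' => q.1.1 ⊆ q'.1.1 ∧ ∀ x ∈ spt q.1.1, q'.1.2 x = q.1.2 x
  have : Nonempty P := ⟨⟨(S₀, g₀), subset_rfl, hS₀, hg₀, fun _ _ => rfl, fun _ _ => rfl⟩⟩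
  have trans : ∀ {a b c : P}, r a b → r b c → r a c := by
    intro a b c hab hbc
    refine ⟨hab.1.trans hbc.1, fun x hx => ?_⟩
    rw [hbc.2 x (spt_mono hab.1 hx), hab.2 x hx]
  have chains : ∀ c : Set P, IsChain r c → c.Nonempty → ∃ ub, ∀ a ∈ c, r a ub := by
    intro c hc hne
    obtain ⟨q₀, hq₀⟩ := hne
    -- the union of the functions
    let W : Set E := {x | ∃ q ∈ c, x ∈ spt q.1.1 ∨ x ∈ D}
    have hr : ∀ q ∈ c, ∀ q' ∈ c, r q q' ∨ r q' q := by
      intro q hq q' hq'
      by_cases hqq : q = q'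
      · left
        subst hqq
        exact ⟨subset_rfl, fun _ _ => rfl⟩
      · exact hc hq hq' hqq
    let f : E → ℝ := fun x => if h : ∃ q ∈ c, x ∈ spt q.1.1 then h.choose.1.2 x else g₀ x
    have hf1 : ∀ q ∈ c, ∀ x ∈ spt q.1.1, f x = q.1.2 x := by
      intro q hq x hx
      have hex : ∃ q ∈ c, x ∈ spt q.1.1 := ⟨q, hq, hx⟩
      have hfx : f x = hex.choose.1.2 x := dif_pos hex
      rw [hfx]
      obtain ⟨hc1, hc2⟩ := hex.choose_spec
      rcases hr q hq _ hc1 with h | h
      · exact h.2 x hx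
      · exact (h.2 x hc2).symm
    have hf2 : ∀ x ∈ D, f x = g₀ x := by
      intro x hx
      by_cases hex : ∃ q ∈ c, x ∈ spt q.1.1
      · obtain ⟨q, hq, hxq⟩ := hex
        rw [hf1 q hq x hxq]
        exact q.2.2.2.2.2 x hx
      · exact dif_neg hex
    have hW : ∀ x ∈ W, ∀ y ∈ W, |f x - f y| ≤ ‖x - y‖ := by
      rintro x ⟨q, hq, hx⟩ y ⟨q', hq', hy⟩
      -- a common member of the chain
      obtain ⟨m, hm, hqm, hqm'⟩ : ∃ m ∈ c, q.1.1 ⊆ m.1.1 ∧ q'.1.1 ⊆ m.1.1 := by
        rcases hr q hq q' hq' with h | h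
        · exact ⟨q', hq', h.1, subset_rfl⟩
        · exact ⟨q, hq, subset_rfl, h.1⟩
      have hval : ∀ z, ∀ u : Set Code, u ⊆ m.1.1 → (z ∈ spt u ∨ z ∈ D) → f z = m.1.2 z := by
        intro z u hu hz
        rcases hz with hz | hz
        · exact hf1 m hm z (spt_mono hu hz)
        · rw [hf2 z hz]
          exact (m.2.2.2.2.2 z hz).symm
      rw [hval x _ hqm hx, hval y _ hqm' hy]
      exact m.2.2.2.1.abs_sub_le x y
    obtain ⟨g', hg'lip, hg'eq⟩ := (lipOn_iff.2 hW).extend_real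
    let Su : Set Code := ⋃ q ∈ c, q.1.1
    have hsubS : ∀ q ∈ c, q.1.1 ⊆ Su := fun q hq => subset_biUnion_of_mem (u := fun q : P => q.1.1) hq
    have hg'1 : ∀ q ∈ c, ∀ x ∈ spt q.1.1, g' x = q.1.2 x := by
      intro q hq x hx
      rw [← hg'eq ⟨q, hq, Or.inl hx⟩, hf1 q hq x hx]
    refine ⟨⟨(Su, g'), q₀.2.1.trans (hsubS q₀ hq₀), ?_, ⟨hg'lip, ?_, ?_⟩, ?_, ?_⟩, ?_⟩
    · intro γ hγ
      obtain ⟨q, hq, hγq⟩ := mem_iUnion₂.1 hγ
      exact (q.2.2.1 γ hγq).trans (hsubS q hq)
    · show g' 0 = 0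
      rw [hg'1 q₀ hq₀ 0 (Submodule.zero_mem _)]
      exact q₀.2.2.2.1.zero
    · intro γ hγ hb
      obtain ⟨q, hq, hγq⟩ := mem_iUnion₂.1 hγ
      exact (q.2.2.2.1.congr q.2.2.1 hg'lip (hg'1 q hq)).con γ hγq hb
    · intro x hx
      show g' x = g₀ x
      rw [hg'1 q₀ hq₀ x (spt_mono q₀.2.1 hx)]
      exact q₀.2.2.2.2.1 x hx
    · intro x hx
      show g' x = g₀ x
      rw [← hg'eq ⟨q₀, hq₀, Or.inr hx⟩, hf2 x hx]
    · intro q hq
      exact ⟨hsubS q hq, hg'1 q hq⟩
  obtain ⟨m, hm⟩ := exists_maximal_of_nonempty_chains_bounded chains trans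
  have huniv : m.1.1 = univ := by
    by_contra hne
    have hne' : (m.1.1ᶜ).Nonempty := by
      rw [nonempty_compl]
      exact hne
    obtain ⟨γ, hγ, hmin⟩ := sub_wf.has_min _ hne'
    have hsub : sub γ ⊆ m.1.1 := by
      intro δ hδ
      by_contra hδ'
      exact hmin δ hδ' hδ
    have hγS₀ : γ ∉ S₀ := fun h => hγ (m.2.1 h)
    obtain ⟨g', h1, h2, h3, _⟩ := ext_step m.2.2.1 m.2.2.2.1 (D := D) hγ hsub (by
      intro a ha
      rw [m.2.2.2.2.2 a ha]
      exact hD a ha γ hγS₀)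
    let m' : P := ⟨(insert γ m.1.1, g'), m.2.1.trans (subset_insert _ _), by
        intro δ hδ
        rcases hδ with rfl | hδ
        · exact hsub.trans (subset_insert _ _)
        · exact (m.2.2.1 δ hδ).trans (subset_insert _ _), h1, by
        intro x hx
        show g' x = g₀ x
        rw [h2 x (spt_mono m.2.1 hx)]
        exact m.2.2.2.2.1 x hx, by
        intro x hx
        show g' x = g₀ x
        rw [h3 x hx]
        exact m.2.2.2.2.2 x hx⟩
    have hmm' : r m m' := ⟨subset_insert _ _, h2⟩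
    exact hγ ((hm m' hmm').1 (mem_insert γ _))
  refine ⟨m.1.2, ?_, m.2.2.2.2.1, m.2.2.2.2.2⟩
  have := m.2.2.2.1
  rwa [huniv] at this

end

end Pool.Agent.H30MS
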