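import Pool.Agent.H30MS.Local

/-!
A maximal closed set of codes on which compatible functions separate points.
-/

set_option autoImplicit false

namespace Pool.Agent.H30MS

noncomputable section

open Set Classical

/-- extension from vectors with a small part outside `S` -/
theorem ext_tail {S : Set Code} (hS : Clo S) {g₀ : E → ℝ} (hg₀ : Compat S g₀) :
    ∃ g, Compat univ g ∧ ∀ x, ‖x - proj S x‖ ≤ 1 → g x = g₀ x := by
  obtain ⟨g, hg, -, h2⟩ := ext_all hS hg₀ {a | ‖a - proj S a‖ ≤ 1} (by
    intro a ha γ hγ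
    have h1 : |a γ| ≤ 1 := by
      have h := abs_apply_le (a - proj S a) γ
      have e : (a - proj S a) γ = a γ := by
        simp [proj_apply_notMem a hγ]
      rw [e] at h
      exact h.trans ha
    have h2 := norm_sgl_sub_ge a γ (rad γ + 2)
    have h3 := hg₀.abs_le a
    unfold pt
    linarith)
  exact ⟨g, hg, fun x hx => h2 x hx⟩

/-- closed sets of codes for which points are separated -/
def Good : Set (Set Code) :=
  {S | Clo S ∧ ∀ x ∈ spt S, ∀ x' ∈ spt S, x ≠ x' → ∃ g, Compat univ g ∧ g x ≠ g x'}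

theorem compat_eval {S : Set Code} (hS : Clo S) {δ : Code} (hδ : δ ∉ S) :
    Compat S (fun a => a δ) where
  lip := by
    apply LipschitzWith.of_le_add
    intro x y
    rw [dist_eq_norm]
    have h := abs_apply_le (x - y) δ
    have h2 := le_abs_self ((x - y) δ)
    simp only [AddSubgroup.coe_sub, PreLp.sub_apply] at h h2
    linarith
  zero := by simp
  con := by
    intro γ hγ _
    have h1 : δ ≠ γ := by
      rintro rfl
      exact hδ hγ
    rw [pt, sgl_ne h1, val_zero]
    intro x hx
    exact (spt_mono (hS γ hγ) hx) δ hδ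

theorem good_base : ({Code.base} : Set Code) ∈ Good := by
  have hclo : Clo ({Code.base} : Set Code) := by
    intro γ hγ
    rw [mem_singleton_iff] at hγ
    subst hγ
    simp [sub]
  refine ⟨hclo, ?_⟩
  intro x hx x' hx' hne
  have hcomp : Compat ({Code.base} : Set Code) (fun a : E => a Code.base) := by
    refine ⟨?_, by simp, ?_⟩
    · apply LipschitzWith.of_le_add
      intro x y
      rw [dist_eq_norm]
      have h := abs_apply_le (x - y) Code.base
      have h2 := le_abs_self ((x - y) Code.base)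
      simp only [AddSubgroup.coe_sub, PreLp.sub_apply] at h h2
      linarith
    · intro γ hγ hb
      exact absurd hγ hb
  obtain ⟨g, hg, hgeq, -⟩ := ext_all hclo hcomp ∅ (by simp)
  refine ⟨g, hg, ?_⟩
  rw [hgeq x hx, hgeq x' hx']
  intro heq
  apply hne
  ext γ
  by_cases hγ : γ = Code.base
  · rw [hγ]
    exact heq
  · rw [hx γ hγ, hx' γ hγ]

theorem Compat.mono {S T : Set Code} (h : S ⊆ T) {g : E → ℝ} (hg : Compat T g) : Compat S g :=
  ⟨hg.lip, hg.zero, fun γ hγ hb => hg.con γ (h hγ) hb⟩

theorem compat_proj {S : Set Code} (hS : Clo S) {g : E → ℝ} (hg : Compat univ g) :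
    Compat S (fun a => g (proj S a)) := by
  refine (hg.mono (subset_univ S)).congr hS ?_ ?_
  · apply LipschitzWith.of_le_add
    intro x y
    rw [dist_eq_norm]
    have h1 := (abs_le.1 (hg.abs_sub_le (proj S x) (proj S y))).2
    rw [← proj_sub] at h1
    have h2 := norm_proj_le S (x - y)
    linarith
  · intro x hx
    simp only [proj_eq_self hx]

theorem good_chain (c : Set (Set Code)) (hc : c ⊆ Good) (hchain : IsChain (· ⊆ ·) c)
    (hne : c.Nonempty) : ⋃₀ c ∈ Good := by
  refine ⟨?_, ?_⟩
  · intro γ hγ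
    obtain ⟨S, hS, hγS⟩ := mem_sUnion.1 hγ
    exact ((hc hS).1 γ hγS).trans (subset_sUnion_of_mem hS)
  intro x hx x' hx' hxx
  obtain ⟨F₁, h₁⟩ := exists_finset_norm_sub_lt x (show (0 : ℝ) < 1 by norm_num)
  obtain ⟨F₂, h₂⟩ := exists_finset_norm_sub_lt x' (show (0 : ℝ) < 1 by norm_num)
  -- a member of the chain that contains the relevant codes
  obtain ⟨S, hSc, hS⟩ : ∃ S ∈ c, ∀ γ ∈ F₁ ∪ F₂, γ ∈ ⋃₀ c → γ ∈ S := by
    have key : ∀ F : Finset Code, ∃ S ∈ c, ∀ γ ∈ F, γ ∈ ⋃₀ c → γ ∈ S := by
      intro F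
      induction F using Finset.induction_on with
      | empty =>
        obtain ⟨S, hS⟩ := hne
        exact ⟨S, hS, by simp⟩
      | insert δ F _ ih =>
        obtain ⟨S, hS, hSF⟩ := ih
        by_cases hδ : δ ∈ ⋃₀ c
        · obtain ⟨T, hT, hδT⟩ := mem_sUnion.1 hδ
          rcases hchain.total hS hT with h | h
          · refine ⟨T, hT, ?_⟩
            intro γ hγ hγc
            rcases Finset.mem_insert.1 hγ with rfl | hγ
            · exact hδT
            · exact h (hSF γ hγ hγc)
          · refine ⟨S, hS, ?_⟩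
            intro γ hγ hγc
            rcases Finset.mem_insert.1 hγ with rfl | hγ
            · exact h hδT
            · exact hSF γ hγ hγc
        · refine ⟨S, hS, ?_⟩
          intro γ hγ hγc
          rcases Finset.mem_insert.1 hγ with rfl | hγ
          · exact absurd hγc hδ
          · exact hSF γ hγ hγc
    exact key _
  have tail : ∀ y : E, y ∈ spt (⋃₀ c) → ∀ F : Finset Code, F ⊆ F₁ ∪ F₂ →
      ‖y - proj (F : Set Code) y‖ < 1 → ‖y - proj S y‖ ≤ 1 := by
    intro y hy F hF hyF
    have hsub : (F : Set Code) ∩ ⋃₀ c ⊆ S := by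
      rintro γ ⟨hγ, hγc⟩
      exact hS γ (hF hγ) hγc
    have e : proj ((F : Set Code) ∩ ⋃₀ c) y = proj (F : Set Code) y := by
      ext γ
      by_cases hγ : γ ∈ (F : Set Code)
      · by_cases hγc : γ ∈ ⋃₀ c
        · rw [proj_apply_mem y hγ, proj_apply_mem y (show γ ∈ (F : Set Code) ∩ ⋃₀ c from ⟨hγ, hγc⟩)]
        · rw [proj_apply_mem y hγ,
            proj_apply_notMem y (show γ ∉ (F : Set Code) ∩ ⋃₀ c from fun h => hγc h.2), hy γ hγc]
      · rw [proj_apply_notMem y hγ,
          proj_apply_notMem y (show γ ∉ (F : Set Code) ∩ ⋃₀ c from fun h => hγ h.1)]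
    have := norm_sub_proj_mono hsub y
    rw [e] at this
    exact this.trans hyF.le
  have hx1 := tail x hx F₁ Finset.subset_union_left h₁
  have hx1' := tail x' hx' F₂ Finset.subset_union_right h₂
  have hclo : Clo S := (hc hSc).1
  by_cases hcase : proj S x = proj S x'
  · -- the tails differ
    obtain ⟨δ, hδ⟩ : ∃ δ, x δ ≠ x' δ := by
      by_contra hcon
      push Not at hcon
      exact hxx (by ext i; exact hcon i)
    have hδS : δ ∉ S := by
      intro h
      apply hδ
      rw [← proj_apply_mem x h, ← proj_apply_mem x' h, hcase]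
    obtain ⟨g, hg, hgeq⟩ := ext_tail hclo (compat_eval hclo hδS)
    refine ⟨g, hg, ?_⟩
    rw [hgeq x hx1, hgeq x' hx1']
    exact hδ
  · obtain ⟨g₁, hg₁, hne₁⟩ := (hc hSc).2 _ (proj_mem_spt S x) _ (proj_mem_spt S x') hcase
    obtain ⟨g, hg, hgeq⟩ := ext_tail hclo (compat_proj hclo hg₁)
    refine ⟨g, hg, ?_⟩
    rw [hgeq x hx1, hgeq x' hx1']
    exact hne₁

/-- adding one code whose point is separated from the old vectors -/
theorem good_insert {S : Set Code} (hS : S ∈ Good) {γ : Code} (hγ : γ ∉ S) (hsub : sub γ ⊆ S)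
    (hsep : ∀ x ∈ spt S, ∃ g, Compat univ g ∧ g (pt γ) ≠ g x) : insert γ S ∈ Good := by
  have hclo : Clo (insert γ S) := by
    intro δ hδ
    rcases hδ with rfl | hδ
    · exact hsub.trans (subset_insert _ _)
    · exact (hS.1 δ hδ).trans (subset_insert _ _)
  refine ⟨hclo, ?_⟩
  set A : Set E := (spt S : Set E) ∪ {pt γ} with hA
  have hAc : IsClosed A := (isClosed_spt S).union isClosed_singleton
  -- separating a point outside `A`
  have bump : ∀ x x' : E, x ∈ spt (insert γ S) → x' ∈ spt (insert γ S) → x ∉ A → x ≠ x' →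
      ∃ g, Compat univ g ∧ g x ≠ g x' := by
    intro x x' hxs hxs' hx hne
    have hAne : A.Nonempty := ⟨pt γ, Or.inr rfl⟩
    have hd : 0 < Metric.infDist x A := (hAc.notMem_iff_infDist_pos hAne).1 hx
    have hd' : 0 < ‖x - x'‖ := norm_pos_iff.2 (sub_ne_zero.2 hne)
    set d := min (Metric.infDist x A) ‖x - x'‖ with hdd
    have hdpos : 0 < d := lt_min hd hd'
    let b : E → ℝ := fun v => max 0 (d - ‖v - x‖)
    have hblip : LipschitzWith 1 b := by
      apply LipschitzWith.of_le_add
      intro u v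
      rw [dist_eq_norm]
      have t2 : ‖v - x‖ ≤ ‖u - x‖ + ‖u - v‖ := by
        have := norm_sub_le (u - x) (u - v)
        have e : u - x - (u - v) = v - x := by abel
        rwa [e] at this
      apply max_le
      · have : 0 ≤ b v := le_max_left _ _
        linarith [norm_nonneg (u - v)]
      · have : d - ‖v - x‖ ≤ b v := le_max_right _ _
        linarith
    have hbA : ∀ a ∈ A, b a = 0 := by
      intro a ha
      have h1 : d ≤ ‖a - x‖ := by
        refine (min_le_left _ _).trans ?_
        rw [norm_sub_rev, ← dist_eq_norm]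
        exact Metric.infDist_le_dist_of_mem ha
      exact max_eq_left (by linarith)
    have hbx : b x = d := by
      show max 0 (d - ‖x - x‖) = d
      simp [hdpos.le]
    have hbx' : b x' = 0 := by
      apply max_eq_left
      have := min_le_right (Metric.infDist x A) ‖x - x'‖
      rw [norm_sub_rev x' x]
      linarith
    have hbc : Compat (insert γ S) b := by
      refine ⟨hblip, hbA 0 (Or.inl (Submodule.zero_mem _)), ?_⟩
      intro δ hδ hb
      rcases hδ with rfl | hδ
      · rw [hbA _ (Or.inr rfl), val_zero]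
        intro x hx
        exact hbA x (Or.inl (spt_mono hsub hx))
      · have hp : pt δ ∈ spt S := sgl_mem_spt hδ _
        rw [hbA _ (Or.inl hp), val_zero]
        intro x hx
        exact hbA x (Or.inl (spt_mono (hS.1 δ hδ) hx))
    obtain ⟨g, hg, hgeq, -⟩ := ext_all hclo hbc ∅ (by simp)
    refine ⟨g, hg, ?_⟩
    rw [hgeq x hxs, hgeq x' hxs', hbx, hbx']
    exact hdpos.ne'
  intro x hx x' hx' hne
  by_cases hxA : x ∈ A
  · by_cases hxA' : x' ∈ A
    · rcases hxA with h | h
      · rcases hxA' with h' | h'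
        · exact hS.2 x h x' h' hne
        · rw [mem_singleton_iff] at h'
          obtain ⟨g, hg, hgg⟩ := hsep x h
          exact ⟨g, hg, by rw [h']; exact hgg.symm⟩
      · rw [mem_singleton_iff] at h
        rcases hxA' with h' | h'
        · obtain ⟨g, hg, hgg⟩ := hsep x' h'
          exact ⟨g, hg, by rw [h]; exact hgg⟩
        · rw [mem_singleton_iff] at h'
          exact absurd (h.trans h'.symm) hne
    · obtain ⟨g, hg, hgg⟩ := bump x' x hx' hx hxA' hne.symm
      exact ⟨g, hg, hgg.symm⟩
  · exact bump x x' hx hx' hxA hne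

/-- there is a maximal good set containing the base code -/
theorem exists_maximal_good : ∃ S : Set Code, Code.base ∈ S ∧ S ∈ Good ∧
    ∀ T ∈ Good, S ⊆ T → T ⊆ S := by
  obtain ⟨S, hS, hmax⟩ := zorn_subset_nonempty Good (fun c hc hchain hne =>
    ⟨⋃₀ c, good_chain c hc hchain hne, fun s hs => subset_sUnion_of_mem hs⟩) _ good_base
  exact ⟨S, hS rfl, hmax.1, fun T hT h => hmax.2 hT h⟩

end

end Pool.Agent.H30MS
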