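import Pool.Agent.H30MS.Ext

/-!
Compatible functions norm small differences.
-/

set_option autoImplicit false

namespace Pool.Agent.H30MS

noncomputable section

open Set Classical

/-- changing a 1-Lipschitz function outside `A` so that it norms the pair `x, x'` -/
theorem two_point {f : E → ℝ} (hf : ∀ x y, |f x - f y| ≤ ‖x - y‖) {A : Set E} (hA : A.Nonempty)
    {x x' : E} (h : ∀ a ∈ A, ∀ a' ∈ A, ‖x - x'‖ - ‖x - a‖ - ‖x' - a'‖ ≤ f a - f a') :
    ∃ F : E → ℝ, LipschitzWith 1 F ∧ (∀ a ∈ A, F a = f a) ∧ F x - F x' = ‖x - x'‖ := by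
  obtain ⟨c, hc1, hc2⟩ := exists_between_of_forall_le
    (s := (fun a => f a - ‖x' - a‖) '' A) (t := (fun a => f a + ‖x - a‖ - ‖x - x'‖) '' A)
    (hA.image _) (hA.image _) (by
      rintro _ ⟨a', ha', rfl⟩ _ ⟨a, ha, rfl⟩
      have := h a ha a' ha'
      simp only
      linarith)
  have h1 : ∀ a ∈ A, f a - ‖x' - a‖ ≤ c := fun a ha => hc1 ⟨a, ha, rfl⟩
  have h2 : ∀ a ∈ A, c ≤ f a + ‖x - a‖ - ‖x - x'‖ := fun a ha => hc2 ⟨a, ha, rfl⟩
  let F : E → ℝ := fun u => max (min (f u) (c + ‖u - x'‖)) (c + ‖x - x'‖ - ‖u - x‖)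
  have hF : LipschitzWith 1 F := by
    apply LipschitzWith.of_le_add
    intro u v
    rw [dist_eq_norm]
    have t1 : ‖u - x'‖ ≤ ‖v - x'‖ + ‖u - v‖ := by
      have := norm_add_le (v - x') (u - v)
      have e : v - x' + (u - v) = u - x' := by abel
      rwa [e] at this
    have t2 : ‖v - x‖ ≤ ‖u - x‖ + ‖u - v‖ := by
      have := norm_sub_le (u - x) (u - v)
      have e : u - x - (u - v) = v - x := by abel
      rwa [e] at this
    have t3 := (abs_le.1 (hf u v)).2
    apply max_le
    · have : min (f u) (c + ‖u - x'‖) ≤ min (f v) (c + ‖v - x'‖) + ‖u - v‖ := by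
        rw [← min_add_add_right]
        apply le_min
        · exact (min_le_left _ _).trans (by linarith)
        · exact (min_le_right _ _).trans (by linarith)
      exact this.trans (by
        have := le_max_left (min (f v) (c + ‖v - x'‖)) (c + ‖x - x'‖ - ‖v - x‖)
        show _ ≤ F v + _
        linarith)
    · have := le_max_right (min (f v) (c + ‖v - x'‖)) (c + ‖x - x'‖ - ‖v - x‖)
      show _ ≤ F v + _
      have e : F v = max (min (f v) (c + ‖v - x'‖)) (c + ‖x - x'‖ - ‖v - x‖) := rfl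
      linarith
  refine ⟨F, hF, ?_, ?_⟩
  · intro a ha
    have e1 : f a ≤ c + ‖a - x'‖ := by
      rw [norm_sub_rev]
      linarith [h1 a ha]
    have e2 : c + ‖x - x'‖ - ‖a - x‖ ≤ f a := by
      rw [norm_sub_rev a x]
      linarith [h2 a ha]
    show max (min (f a) (c + ‖a - x'‖)) (c + ‖x - x'‖ - ‖a - x‖) = f a
    rw [min_eq_left e1, max_eq_left e2]
  · apply le_antisymm
    · have := hF.dist_le_mul x x'
      rw [Real.dist_eq, dist_eq_norm] at this
      have h3 := le_abs_self (F x - F x')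
      simp only [NNReal.coe_one, one_mul] at this
      linarith
    · have e1 : F x' ≤ c := by
        show max (min (f x') (c + ‖x' - x'‖)) (c + ‖x - x'‖ - ‖x' - x‖) ≤ c
        apply max_le
        · refine (min_le_right _ _).trans ?_
          simp
        · rw [norm_sub_rev x' x]
          linarith
      have e2 : c + ‖x - x'‖ ≤ F x := by
        have : c + ‖x - x'‖ - ‖x - x‖ ≤ F x := le_max_right _ _
        simpa using this
      linarith

/-- the ordinal rank of a code -/
def rk (c : Code) : Ordinal.{0} := (sub_wf.apply c).rank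

theorem rk_lt {a b : Code} (h : a ∈ sub b) : rk a < rk b :=
  Acc.rank_lt_of_rel (sub_wf.apply b) h

theorem clo_rank (γ : Code) :
    Clo {δ | δ ≠ γ ∧ rk δ ≤ rk γ} := by
  intro δ hδ ε hε
  have h1 : rk ε < rk δ := rk_lt hε
  have h2 := h1.trans_le hδ.2
  refine ⟨?_, h2.le⟩
  rintro rfl
  exact lt_irrefl _ h2

theorem sub_subset_rank (γ : Code) :
    sub γ ⊆ {δ | δ ≠ γ ∧ rk δ ≤ rk γ} := by
  intro δ hδ
  have h1 : rk δ < rk γ := rk_lt hδ
  refine ⟨?_, h1.le⟩
  rintro rfl
  exact lt_irrefl _ h1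

/-- norming a pair with one more coordinate -/
theorem local_step {S : Set Code} (hS : Clo S) {γ : Code} (hγ : γ ∉ S) (hsub : sub γ ⊆ S)
    {g : E → ℝ} (hg : Compat univ g) {z z' : E} (hz : z ∈ spt S) (hz' : z' ∈ spt S) (t t' : ℝ)
    (hn : |t - t'| ≤ 1) (hgz : g z - g z' = ‖z - z'‖) :
    ∃ g', Compat univ g' ∧
      g' (z + sgl γ t) - g' (z' + sgl γ t') = ‖(z + sgl γ t) - (z' + sgl γ t')‖ := by
  have hR := rad_nonneg γ
  have hγS : ∀ z ∈ spt S, z γ = 0 := fun z hz => hz γ hγ
  have hgS : Compat S g := ⟨hg.lip, hg.zero, fun γ _ hb => hg.con γ (mem_univ _) hb⟩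
  obtain ⟨g₁, hg₁, heq, -, hpt⟩ := ext_step hS hgS (D := ∅) hγ hsub (by simp)
  have hgz₁ : g₁ z - g₁ z' = ‖z - z'‖ := by rw [heq z hz, heq z' hz', hgz]
  have hv : |g₁ (pt γ)| ≤ rad γ := by
    rw [hpt]
    exact abs_val_le _ _
  set x := z + sgl γ t with hx
  set x' := z' + sgl γ t' with hx'
  have hxx : ‖x - x'‖ = ‖z - z'‖ + |t - t'| := by
    have e : x - x' = (z - z') + sgl γ (t - t') := by
      rw [hx, hx', sgl_sub]
      abel
    rw [e, norm_add_single]
    simp [hγS z hz, hγS z' hz']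
  have hxS : ∀ a ∈ spt S, ‖x - a‖ = ‖z - a‖ + |t| := by
    intro a ha
    have e : x - a = (z - a) + sgl γ t := by
      rw [hx]
      abel
    rw [e, norm_add_single]
    simp [hγS z hz, hγS a ha]
  have hxS' : ∀ a ∈ spt S, ‖x' - a‖ = ‖z' - a‖ + |t'| := by
    intro a ha
    have e : x' - a = (z' - a) + sgl γ t' := by
      rw [hx']
      abel
    rw [e, norm_add_single]
    simp [hγS z' hz', hγS a ha]
  have hxp : ‖x - pt γ‖ = ‖z‖ + |rad γ + 2 - t| := by
    have e : x - pt γ = z + sgl γ (t - (rad γ + 2)) := by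
      rw [hx, pt, sgl_sub]
      abel
    rw [e, norm_add_single (hγS z hz), abs_sub_comm]
  have hxp' : ‖x' - pt γ‖ = ‖z'‖ + |rad γ + 2 - t'| := by
    have e : x' - pt γ = z' + sgl γ (t' - (rad γ + 2)) := by
      rw [hx', pt, sgl_sub]
      abel
    rw [e, norm_add_single (hγS z' hz'), abs_sub_comm]
  -- the numerical inequality
  have num1 : rad γ ≤ |t| + |rad γ + 2 - t'| - |t - t'| := by
    have h1 := le_abs_self (rad γ + 2 - t')
    have h2 := le_abs_self t
    have h3 : -|t - t'| ≤ t - t' := neg_abs_le _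
    linarith
  have num2 : rad γ ≤ |t'| + |rad γ + 2 - t| - |t - t'| := by
    have h1 := le_abs_self (rad γ + 2 - t)
    have h2 := le_abs_self t'
    have h3 : t - t' ≤ |t - t'| := le_abs_self _
    linarith
  have hA : ∀ a ∈ (spt S : Set E) ∪ {pt γ}, ∀ a' ∈ (spt S : Set E) ∪ {pt γ},
      ‖x - x'‖ - ‖x - a‖ - ‖x' - a'‖ ≤ g₁ a - g₁ a' := by
    intro a ha a' ha'
    rcases ha with ha | ha
    · rcases ha' with ha' | ha'
      · rw [hxx, hxS a ha, hxS' a' ha']
        have h1 := (abs_le.1 (hg₁.abs_sub_le z a)).2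
        have h2 := (abs_le.1 (hg₁.abs_sub_le z' a')).1
        have h3 : |t - t'| ≤ |t| + |t'| := abs_sub _ _
        linarith
      · rw [mem_singleton_iff] at ha'
        rw [ha', hxx, hxS a ha, hxp']
        have h1 := (abs_le.1 (hg₁.abs_sub_le z a)).2
        have h2 := (abs_le.1 (hg₁.abs_le z')).1
        have h3 := (abs_le.1 hv).2
        linarith
    · rw [mem_singleton_iff] at ha
      rcases ha' with ha' | ha'
      · rw [ha, hxx, hxp, hxS' a' ha']
        have h1 := (abs_le.1 (hg₁.abs_sub_le z' a')).1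
        have h2 := (abs_le.1 (hg₁.abs_le z)).2
        have h3 := (abs_le.1 hv).1
        linarith
      · rw [mem_singleton_iff] at ha'
        rw [ha, ha', sub_self]
        have := norm_sub_le (x - pt γ) (x' - pt γ)
        have e : x - pt γ - (x' - pt γ) = x - x' := by abel
        rw [e] at this
        linarith
  obtain ⟨F, hF, hFA, hFx⟩ := two_point (fun x y => hg₁.abs_sub_le x y)
    (A := (spt S : Set E) ∪ {pt γ}) ⟨pt γ, Or.inr rfl⟩ hA
  have hclo : Clo (insert γ S) := by
    intro δ hδ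
    rcases hδ with rfl | hδ
    · exact hsub.trans (subset_insert _ _)
    · exact (hS δ hδ).trans (subset_insert _ _)
  have hFc : Compat (insert γ S) F := by
    refine ⟨hF, ?_, ?_⟩
    · rw [hFA 0 (Or.inl (Submodule.zero_mem _)), hg₁.zero]
    · intro δ hδ hb
      rcases hδ with rfl | hδ
      · rw [hFA _ (Or.inr rfl), hpt]
        exact val_congr fun x hx => (hFA x (Or.inl (spt_mono hsub hx))).symm
      · have hp : pt δ ∈ spt S := sgl_mem_spt hδ _
        rw [hFA _ (Or.inl hp), hg₁.con δ (Or.inr hδ) hb]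
        exact val_congr fun x hx => (hFA x (Or.inl (spt_mono (hS δ hδ) hx))).symm
  obtain ⟨g', hg', hg'eq, -⟩ := ext_all hclo hFc ∅ (by simp)
  refine ⟨g', hg', ?_⟩
  have m1 : x ∈ spt (insert γ S) := Submodule.add_mem _ (spt_mono (subset_insert _ _) hz)
    (sgl_mem_spt (mem_insert _ _) _)
  have m2 : x' ∈ spt (insert γ S) := Submodule.add_mem _ (spt_mono (subset_insert _ _) hz')
    (sgl_mem_spt (mem_insert _ _) _)
  rw [hg'eq x m1, hg'eq x' m2, hFx]

theorem compat_zero : Compat univ (fun _ => 0) where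
  lip := LipschitzWith.const' 0
  zero := rfl
  con := by
    intro γ _ _
    exact (val_zero fun _ _ => rfl).symm

/-- finitely supported vectors at distance at most one are normed by compatible functions -/
theorem local_finite (n : ℕ) : ∀ F : Finset Code, F.card = n → ∀ x ∈ spt (F : Set Code),
    ∀ x' ∈ spt (F : Set Code), ‖x - x'‖ ≤ 1 →
    ∃ g, Compat univ g ∧ g x - g x' = ‖x - x'‖ := by
  induction n with
  | zero =>
    intro F hF x hx x' hx' _
    rw [Finset.card_eq_zero] at hF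
    subst hF
    have h1 : ∀ y ∈ spt ((∅ : Finset Code) : Set Code), y = 0 := by
      intro y hy
      ext i
      simpa using hy i (by simp)
    refine ⟨fun _ => 0, compat_zero, ?_⟩
    rw [h1 x hx, h1 x' hx']
    simp
  | succ n ih =>
    intro F hF x hx x' hx' hxx'
    have hne : F.Nonempty := by
      rw [← Finset.card_pos]
      omega
    obtain ⟨γ, hγF, hmax⟩ := F.exists_max_image rk hne
    obtain ⟨z, hz0, hxz, hzx⟩ := split_single x γ
    obtain ⟨z', hz0', hxz', hzx'⟩ := split_single x' γ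
    have hzF : z ∈ spt ((F.erase γ : Finset Code) : Set Code) := by
      intro i hi
      by_cases hiγ : i = γ
      · rw [hiγ, hz0]
      · rw [hzx i hiγ]
        refine hx i (fun h => hi ?_)
        simp only [Finset.coe_erase]
        exact ⟨h, hiγ⟩
    have hzF' : z' ∈ spt ((F.erase γ : Finset Code) : Set Code) := by
      intro i hi
      by_cases hiγ : i = γ
      · rw [hiγ, hz0']
      · rw [hzx' i hiγ]
        refine hx' i (fun h => hi ?_)
        simp only [Finset.coe_erase]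
        exact ⟨h, hiγ⟩
    have hxx : ‖x - x'‖ = ‖z - z'‖ + |x γ - x' γ| := by
      have e : x - x' = (z - z') + sgl γ (x γ - x' γ) := by
        rw [sgl_sub]
        nth_rewrite 1 [hxz, hxz']
        abel
      rw [e, norm_add_single]
      simp [hz0, hz0']
    have hn1 : ‖z - z'‖ ≤ 1 := by linarith [abs_nonneg (x γ - x' γ)]
    have hn2 : |x γ - x' γ| ≤ 1 := by linarith [norm_nonneg (z - z')]
    obtain ⟨g, hg, hgz⟩ := ih (F.erase γ) (by rw [Finset.card_erase_of_mem hγF, hF]; rfl)
      z hzF z' hzF' hn1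
    have hsubF : ((F.erase γ : Finset Code) : Set Code) ⊆
        {δ | δ ≠ γ ∧ rk δ ≤ rk γ} := by
      intro δ hδ
      simp only [Finset.coe_erase] at hδ
      exact ⟨hδ.2, hmax δ hδ.1⟩
    obtain ⟨g', hg', hgg'⟩ := local_step (clo_rank γ) (γ := γ) (by simp) (sub_subset_rank γ) hg
      (spt_mono hsubF hzF) (spt_mono hsubF hzF') (x γ) (x' γ) hn2 hgz
    refine ⟨g', hg', ?_⟩
    rwa [← hxz, ← hxz'] at hgg'

theorem norm_sub_proj_mono {S T : Set Code} (h : S ⊆ T) (x : E) :
    ‖x - proj T x‖ ≤ ‖x - proj S x‖ := by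
  have e : x - proj T x = (x - proj S x) - proj T (x - proj S x) := by
    rw [proj_sub, proj_eq_self (spt_mono h (proj_mem_spt S x))]
    abel
  rw [e]
  have := norm_split T (x - proj S x)
  linarith [norm_nonneg (proj T (x - proj S x))]

/-- vectors at distance at most one are almost normed by compatible functions -/
theorem local_all {x x' : E} (h : ‖x - x'‖ ≤ 1) {ε : ℝ} (hε : 0 < ε) :
    ∃ g, Compat univ g ∧ ‖x - x'‖ - ε ≤ g x - g x' := by
  obtain ⟨F₁, h₁⟩ := exists_finset_norm_sub_lt x (show 0 < ε / 4 by linarith)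
  obtain ⟨F₂, h₂⟩ := exists_finset_norm_sub_lt x' (show 0 < ε / 4 by linarith)
  have m1 : (F₁ : Set Code) ⊆ ((F₁ ∪ F₂ : Finset Code) : Set Code) := by
    simp
  have m2 : (F₂ : Set Code) ⊆ ((F₁ ∪ F₂ : Finset Code) : Set Code) := by
    simp
  set F : Set Code := ((F₁ ∪ F₂ : Finset Code) : Set Code) with hF
  have h₁' : ‖x - proj F x‖ < ε / 4 := (norm_sub_proj_mono m1 x).trans_lt h₁
  have h₂' : ‖x' - proj F x'‖ < ε / 4 := (norm_sub_proj_mono m2 x').trans_lt h₂
  have h3 : ‖proj F x - proj F x'‖ ≤ 1 := by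
    rw [← proj_sub]
    exact (norm_proj_le _ _).trans h
  obtain ⟨g, hg, hgx⟩ := local_finite _ (F₁ ∪ F₂) rfl (proj F x) (proj_mem_spt _ _) (proj F x')
    (proj_mem_spt _ _) h3
  refine ⟨g, hg, ?_⟩
  have h4 := (abs_le.1 (hg.abs_sub_le x (proj F x))).1
  have h5 := (abs_le.1 (hg.abs_sub_le x' (proj F x'))).2
  have h6 : ‖x - x'‖ ≤ ‖x - proj F x‖ + ‖proj F x - proj F x'‖ + ‖x' - proj F x'‖ := by
    have e : x - x' = (x - proj F x) + (proj F x - proj F x') - (x' - proj F x') := by abel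
    calc ‖x - x'‖ = ‖(x - proj F x) + (proj F x - proj F x') - (x' - proj F x')‖ := by rw [← e]
      _ ≤ ‖(x - proj F x) + (proj F x - proj F x')‖ + ‖x' - proj F x'‖ := norm_sub_le _ _
      _ ≤ _ := by linarith [norm_add_le (x - proj F x) (proj F x - proj F x')]
  linarith

end

end Pool.Agent.H30MS
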