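import Pool.Agent.H30MS.Inj

/-!
A bijective local isometry between Banach spaces that is not an isometry.
-/

set_option autoImplicit false

namespace Pool.Agent.H30MS

noncomputable section

open Set Classical

/-- functions satisfying all constraints -/
abbrev G : Type := {g : E → ℝ // Compat univ g}

/-- the big target space -/
abbrev Big : Type := lp (fun _ : G => ℝ) ⊤

/-- the evaluation map -/
def ev (x : E) : Big := ⟨fun g => g.1 x, by
  apply memℓp_infty
  refine ⟨‖x‖, ?_⟩
  rintro _ ⟨g, rfl⟩
  exact g.2.abs_le x⟩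

theorem ev_apply (x : E) (g : G) : ev x g = g.1 x := rfl

theorem norm_ev_sub_le (x y : E) : ‖ev x - ev y‖ ≤ ‖x - y‖ := by
  apply lp.norm_le_of_forall_le (norm_nonneg _)
  intro g
  exact g.2.abs_sub_le x y

theorem norm_ev_sub {x y : E} (h : ‖x - y‖ ≤ 1) : ‖ev x - ev y‖ = ‖x - y‖ := by
  apply le_antisymm (norm_ev_sub_le x y)
  apply le_of_forall_pos_sub_le
  intro ε hε
  obtain ⟨g, hg, hgx⟩ := local_all h hε
  have h1 := lp.norm_apply_le_norm (E := fun _ : G => ℝ) (p := ⊤) (by simp) (ev x - ev y) ⟨g, hg⟩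
  have h2 : (ev x - ev y) ⟨g, hg⟩ = g x - g y := rfl
  rw [h2, Real.norm_eq_abs] at h1
  exact hgx.trans ((le_abs_self _).trans h1)

/-- bounded functions on `G` that vanish at the zero function and are determined by the
restriction to the vectors supported in a countable subset of `S` -/
def Y (S : Set Code) : Submodule ℝ Big where
  carrier := {y | y ⟨fun _ => 0, compat_zero⟩ = 0 ∧ ∃ C : Set Code, C.Countable ∧ C ⊆ S ∧
    ∀ g g' : G, (∀ x ∈ spt C, g.1 x = g'.1 x) → y g = y g'}
  add_mem' := by
    rintro a b ⟨ha0, C, hC, hCS, ha⟩ ⟨hb0, D, hD, hDS, hb⟩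
    refine ⟨?_, C ∪ D, hC.union hD, union_subset hCS hDS, ?_⟩
    · show a _ + b _ = 0
      rw [ha0, hb0, add_zero]
    · intro g g' h
      show a g + b g = a g' + b g'
      rw [ha g g' fun x hx => h x (spt_mono subset_union_left hx),
        hb g g' fun x hx => h x (spt_mono subset_union_right hx)]
  zero_mem' := ⟨rfl, ∅, countable_empty, empty_subset _, fun _ _ _ => rfl⟩
  smul_mem' := by
    rintro c a ⟨ha0, C, hC, hCS, ha⟩
    refine ⟨?_, C, hC, hCS, ?_⟩
    · show c * a _ = 0
      rw [ha0, mul_zero]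
    · intro g g' h
      show c * a g = c * a g'
      rw [ha g g' h]

theorem isClosed_Y (S : Set Code) : IsClosed (Y S : Set Big) := by
  apply IsSeqClosed.isClosed
  intro u y hu hy
  have hev : ∀ g : G, Filter.Tendsto (fun n => u n g) Filter.atTop (nhds (y g)) := by
    intro g
    have hc : Continuous (fun z : Big => z g) :=
      (lp.lipschitzWith_one_eval (E := fun _ : G => ℝ) ⊤ g).continuous
    exact (hc.tendsto y).comp hy
  choose h0 C hC hCS hdet using hu
  refine ⟨?_, ⋃ n, C n, countable_iUnion hC, iUnion_subset hCS, ?_⟩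
  · refine tendsto_nhds_unique (hev _) ?_
    simp only [h0]
    exact tendsto_const_nhds
  · intro g g' h
    refine tendsto_nhds_unique (hev g) ?_
    have : (fun n => u n g) = fun n => u n g' := by
      ext n
      exact hdet n g g' fun x hx => h x (spt_mono (subset_iUnion C n) hx)
    rw [this]
    exact hev g'

theorem ev_mem {S : Set Code} {x : E} (hx : x ∈ spt S) : ev x ∈ Y S := by
  refine ⟨rfl, {γ | x γ ≠ 0}, ?_, ?_, ?_⟩
  · have := (L1.summable_abs x).countable_support
    convert this using 1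
    ext γ
    simp [Function.mem_support]
  · intro γ hγ
    by_contra h
    exact hγ (hx γ h)
  · intro g g' h
    refine h x ?_
    intro γ hγ
    by_contra h'
    exact hγ h'

/-- agreement on finite combinations gives agreement on the closed span -/
theorem eq_of_comb {s : ℕ → Code} {g g' : G} (h : ∀ c, g.1 (comb s c) = g'.1 (comb s c)) :
    ∀ x ∈ spt (Set.range s), g.1 x = g'.1 x := by
  intro x hx
  have hproj : ∀ F : Finset Code, ∃ c, proj (F : Set Code) x = comb s c := by
    intro F
    have hsum : proj (F : Set Code) x = ∑ γ ∈ F, sgl γ (x γ) := by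
      ext j
      rw [lp.coeFn_sum, Finset.sum_apply]
      by_cases hj : j ∈ F
      · rw [proj_apply_mem x (by simpa using hj), Finset.sum_eq_single j]
        · exact (sgl_self j (x j)).symm
        · intro b _ hb
          exact sgl_ne (Ne.symm hb) _
        · intro hn
          exact absurd hj hn
      · rw [proj_apply_notMem x (by simpa using hj), Finset.sum_eq_zero]
        intro b hb
        exact sgl_ne (fun h => hj (by rw [h]; exact hb)) _
    have : proj (F : Set Code) x ∈ LinearMap.range (comb s) := by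
      rw [hsum]
      refine Submodule.sum_mem _ fun γ _ => ?_
      by_cases hγ : γ ∈ Set.range s
      · obtain ⟨k, rfl⟩ := hγ
        refine ⟨Finsupp.single k (x (s k)), ?_⟩
        unfold comb
        rw [Finsupp.linearCombination_single]
        have := lp.single_smul (E := fun _ : Code => ℝ) (𝕜 := ℝ) 1 (s k) (x (s k)) 1
        unfold sgl
        rw [← this]
        simp
      · rw [hx γ hγ, sgl_zero]
        exact Submodule.zero_mem _
    obtain ⟨c, hc⟩ := this
    exact ⟨c, hc.symm⟩
  refine eq_of_forall_dist_le fun ε hε => ?_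
  obtain ⟨F, hF⟩ := exists_finset_norm_sub_lt x (show 0 < ε / 2 by linarith)
  obtain ⟨c, hc⟩ := hproj F
  rw [hc] at hF
  have h1 := g.2.abs_sub_le x (comb s c)
  have h2 := g'.2.abs_sub_le x (comb s c)
  rw [Real.dist_eq]
  rw [h c] at h1
  have h3 : g.1 x - g'.1 x = (g.1 x - g'.1 (comb s c)) - (g'.1 x - g'.1 (comb s c)) := by ring
  rw [h3]
  refine (abs_sub _ _).trans ?_
  linarith

/-- if `S` is maximal good then evaluation is onto `Y S` -/
theorem ev_surj {S : Set Code} (hb : Code.base ∈ S) (hS : S ∈ Good)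
    (hmax : ∀ T ∈ Good, S ⊆ T → T ⊆ S) {y : Big} (hy : y ∈ Y S) : ∃ x ∈ spt S, ev x = y := by
  obtain ⟨hy0, C, hC, hCS, hdet⟩ := hy
  obtain ⟨s, hs⟩ := (hC.insert Code.base).exists_eq_range (insert_nonempty _ _)
  have hsS : Set.range s ⊆ S := by
    rw [← hs]
    exact insert_subset hb hCS
  have hdet' : ∀ g g' : G, (∀ c, g.1 (comb s c) = g'.1 (comb s c)) → y g = y g' := by
    intro g g' h
    apply hdet
    intro x hx
    refine eq_of_comb h x (spt_mono ?_ hx)
    rw [← hs]
    exact subset_insert _ _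
  -- the functional
  let Φ : ((ℕ →₀ ℝ) → ℝ) → ℝ := fun φ =>
    if h : ∃ g : G, (fun c => g.1 (comb s c)) = φ then y h.choose else 0
  have hΦ : ∀ g : G, Φ (fun c => g.1 (comb s c)) = y g := by
    intro g
    have hex : ∃ g' : G, (fun c => g'.1 (comb s c)) = (fun c => g.1 (comb s c)) := ⟨g, rfl⟩
    have h1 : Φ (fun c => g.1 (comb s c)) = y hex.choose := dif_pos hex
    rw [h1]
    exact hdet' _ _ fun c => congrFun hex.choose_spec c
  have hΦ0 : Φ (fun _ => 0) = 0 := by
    have := hΦ ⟨fun _ => 0, compat_zero⟩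
    rw [hy0] at this
    exact this
  obtain ⟨γ, hγdef⟩ : ∃ γ, γ = Code.node s ‖y‖ Φ := ⟨_, rfl⟩
  have hγ : ∀ g : G, g.1 (pt γ) = y g := by
    intro g
    have h1 := g.2.con γ (mem_univ _) (by rw [hγdef]; intro h; cases h)
    have h2 : val g.1 γ = clamp ‖y‖ (Φ (fun c => g.1 (comb s c)) - Φ (fun _ => 0)) := by
      rw [hγdef]
      rfl
    rw [h1, h2, hΦ, hΦ0, sub_zero, clamp_of_le]
    rw [abs_of_nonneg (norm_nonneg y)]
    exact lp.norm_apply_le_norm (E := fun _ : G => ℝ) (p := ⊤) (by simp) y g
  have hev : ev (pt γ) = y := by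
    ext g
    exact hγ g
  by_cases hγS : γ ∈ S
  · exact ⟨pt γ, sgl_mem_spt hγS _, hev⟩
  · by_contra hcon
    push Not at hcon
    have hins : insert γ S ∈ Good := by
      refine good_insert hS hγS (by rw [hγdef]; exact hsS) ?_
      intro x hx
      by_contra hno
      push Not at hno
      apply hcon x hx
      ext g
      rw [← hγ g]
      exact (hno g.1 g.2).symm
    exact hγS (hmax _ hins (subset_insert _ _) (mem_insert _ _))

/-- The main construction. -/
theorem main : ∃ (X Y : Type) (_ : NormedAddCommGroup X) (_ : NormedSpace ℝ X)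
    (_ : CompleteSpace X) (_ : NormedAddCommGroup Y) (_ : NormedSpace ℝ Y) (_ : CompleteSpace Y)
    (U : X → Y), Function.Bijective U ∧ (∀ x y : X, dist x y ≤ 1 → dist (U x) (U y) = dist x y) ∧
      ¬ Isometry U := by
  obtain ⟨S, hb, hS, hmax⟩ := exists_maximal_good
  let U : spt S → Y S := fun x => ⟨ev x.1, ev_mem x.2⟩
  have : CompleteSpace (spt S) := (isClosed_spt S).completeSpace_coe
  have : CompleteSpace (Y S) := (isClosed_Y S).completeSpace_coe
  have hinj : Function.Injective U := by
    intro x x' h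
    by_contra hne
    obtain ⟨g, hg, hgg⟩ := hS.2 x.1 x.2 x'.1 x'.2 (fun h => hne (Subtype.ext h))
    apply hgg
    have h1 : ev x.1 = ev x'.1 := congrArg Subtype.val h
    have h2 : ev x.1 ⟨g, hg⟩ = ev x'.1 ⟨g, hg⟩ := by rw [h1]
    exact h2
  have hsurj : Function.Surjective U := by
    rintro ⟨y, hy⟩
    obtain ⟨x, hx, hxy⟩ := ev_surj hb hS hmax hy
    exact ⟨⟨x, hx⟩, Subtype.ext hxy⟩
  refine ⟨spt S, Y S, inferInstance, inferInstance, inferInstance, inferInstance, inferInstance,
    inferInstance, U, ⟨hinj, hsurj⟩, ?_, ?_⟩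
  · intro x y h
    have h1 : dist (U x) (U y) = ‖ev x.1 - ev y.1‖ := dist_eq_norm _ _
    have h2 : dist x y = ‖x.1 - y.1‖ := dist_eq_norm _ _
    rw [h1, h2]
    exact norm_ev_sub (by rwa [h2] at h)
  · intro hiso
    -- a Mazur-Ulam argument
    have hU0 : U 0 = 0 := by
      apply Subtype.ext
      ext g
      exact g.2.zero
    let e : spt S ≃ᵢ Y S := ⟨Equiv.ofBijective U ⟨hinj, hsurj⟩, hiso⟩
    let L : spt S ≃ₗᵢ[ℝ] Y S := e.toRealLinearIsometryEquivOfMapZero hU0
    have hL : ∀ x, L x = U x := fun x => rfl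
    let v : spt S := ⟨sgl Code.base 1, sgl_mem_spt hb 1⟩
    have hv : U (-v) = -U v := by
      rw [← hL, ← hL, map_neg]
    -- the absolute value function
    have hclo : Clo ({Code.base} : Set Code) := good_base.1
    have hcomp : Compat ({Code.base} : Set Code) (fun a : E => |a Code.base|) := by
      refine ⟨?_, by simp, ?_⟩
      · apply LipschitzWith.of_le_add
        intro x y
        rw [dist_eq_norm]
        have h := abs_apply_le (x - y) Code.base
        simp only [AddSubgroup.coe_sub, PreLp.sub_apply] at h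
        have h2 := abs_sub_abs_le_abs_sub (x Code.base) (y Code.base)
        linarith
      · intro γ hγ hb
        exact absurd hγ hb
    obtain ⟨g, hg, hgeq, -⟩ := ext_all hclo hcomp ∅ (by simp)
    have hm : sgl Code.base (1 : ℝ) ∈ spt ({Code.base} : Set Code) :=
      sgl_mem_spt (mem_singleton _) 1
    have h1 : g (sgl Code.base 1) = 1 := by
      rw [hgeq _ hm, sgl_self]
      simp
    have h2 : g (-sgl Code.base 1) = 1 := by
      rw [hgeq _ (Submodule.neg_mem _ hm)]
      have : (-sgl Code.base (1 : ℝ)) Code.base = -(sgl Code.base (1 : ℝ) Code.base) := rfl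
      rw [this, sgl_self]
      simp
    have h3 : (U (-v)).1 ⟨g, hg⟩ = (-U v).1 ⟨g, hg⟩ := by rw [hv]
    have h4 : (U (-v)).1 ⟨g, hg⟩ = g (-sgl Code.base 1) := rfl
    have h5 : (-U v).1 ⟨g, hg⟩ = -g (sgl Code.base 1) := rfl
    rw [h4, h5, h1, h2] at h3
    norm_num at h3

end

end Pool.Agent.H30MS
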