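import Mathlib

/-!
Elementary facts on the space `ℓ¹` over a type of indices, with real coefficients.
-/

set_option autoImplicit false

namespace Pool.Agent.H30MS

noncomputable section

open Set

/-- The real Banach space `ℓ¹(I)`. -/
abbrev L1 (I : Type) : Type := lp (fun _ : I => ℝ) 1

variable {I : Type}

theorem L1.hasSum_norm (x : L1 I) : HasSum (fun i => |x i|) ‖x‖ := by
  have h := lp.hasSum_norm (E := fun _ : I => ℝ) (p := 1) (by simp) x
  simpa using h

theorem L1.summable_abs (x : L1 I) : Summable (fun i => |x i|) := (L1.hasSum_norm x).summable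

theorem L1.norm_eq (x : L1 I) : ‖x‖ = ∑' i, |x i| := (L1.hasSum_norm x).tsum_eq.symm

/-- vectors supported in `S` -/
def spt (S : Set I) : Submodule ℝ (L1 I) where
  carrier := {x | ∀ i, i ∉ S → x i = 0}
  add_mem' := by
    intro a b ha hb i hi
    simp [ha i hi, hb i hi]
  zero_mem' := by
    intro i _
    simp
  smul_mem' := by
    intro c x hx i hi
    simp [hx i hi]

theorem mem_spt {S : Set I} {x : L1 I} : x ∈ spt S ↔ ∀ i, i ∉ S → x i = 0 :=
  ⟨fun h => h, fun h => h⟩

theorem spt_mono {S T : Set I} (h : S ⊆ T) : spt S ≤ spt T := by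
  intro x hx i hi
  exact hx i (fun hS => hi (h hS))

theorem isClosed_spt (S : Set I) : IsClosed (spt S : Set (L1 I)) := by
  have : (spt S : Set (L1 I)) = ⋂ i ∈ {i | i ∉ S}, {x : L1 I | x i = 0} := by
    ext x
    simp only [SetLike.mem_coe, mem_spt, mem_iInter, mem_setOf_eq]
  rw [this]
  refine isClosed_biInter fun i _ => ?_
  have hc : Continuous (fun x : L1 I => x i) :=
    (lp.lipschitzWith_one_eval (E := fun _ : I => ℝ) 1 i).continuous
  exact isClosed_eq hc continuous_const

/-- restriction to the coordinates in `S` -/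
def proj (S : Set I) (x : L1 I) : L1 I :=
  ⟨fun i => S.indicator (fun i => x i) i, by
    refine Memℓp.mono' (E := fun _ : I => ℝ) (lp.memℓp x) ?_
    intro i
    by_cases hi : i ∈ S
    · simp [hi]
    · simp [hi]⟩

theorem proj_apply (S : Set I) (x : L1 I) (i : I) :
    proj S x i = S.indicator (fun i => x i) i := rfl

theorem proj_apply_mem {S : Set I} (x : L1 I) {i : I} (hi : i ∈ S) : proj S x i = x i := by
  simp [proj_apply, hi]

theorem proj_apply_notMem {S : Set I} (x : L1 I) {i : I} (hi : i ∉ S) : proj S x i = 0 := by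
  simp [proj_apply, hi]

theorem proj_mem_spt (S : Set I) (x : L1 I) : proj S x ∈ spt S := fun _ hi =>
  proj_apply_notMem x hi

theorem proj_sub (S : Set I) (x y : L1 I) : proj S (x - y) = proj S x - proj S y := by
  ext i
  by_cases hi : i ∈ S
  · simp [proj_apply, hi]
  · simp [proj_apply, hi]

theorem proj_eq_self {S : Set I} {x : L1 I} (hx : x ∈ spt S) : proj S x = x := by
  ext i
  by_cases hi : i ∈ S
  · simp [proj_apply, hi]
  · simp [proj_apply, hi, hx i hi]

/-- the norm is additive on vectors with disjoint supports -/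
theorem norm_add_of_disjoint {x y : L1 I} (h : ∀ i, x i = 0 ∨ y i = 0) :
    ‖x + y‖ = ‖x‖ + ‖y‖ := by
  rw [L1.norm_eq, L1.norm_eq x, L1.norm_eq y, ← (L1.summable_abs x).tsum_add (L1.summable_abs y)]
  congr 1
  ext i
  rcases h i with h | h
  · simp [h]
  · simp [h]

theorem norm_sub_of_disjoint {x y : L1 I} (h : ∀ i, x i = 0 ∨ y i = 0) :
    ‖x - y‖ = ‖x‖ + ‖y‖ := by
  rw [sub_eq_add_neg, norm_add_of_disjoint, norm_neg]
  intro i
  rcases h i with h | h
  · simp [h]
  · simp [h]

/-- splitting of the norm over `S` and its complement -/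
theorem norm_split (S : Set I) (x : L1 I) : ‖x‖ = ‖proj S x‖ + ‖x - proj S x‖ := by
  rw [← norm_add_of_disjoint]
  · congr 1
    abel
  · intro i
    by_cases hi : i ∈ S
    · right
      simp [proj_apply, hi]
    · left
      simp [proj_apply, hi]

theorem norm_proj_le (S : Set I) (x : L1 I) : ‖proj S x‖ ≤ ‖x‖ := by
  rw [norm_split S x]
  linarith [norm_nonneg (x - proj S x)]

theorem abs_apply_le (x : L1 I) (i : I) : |x i| ≤ ‖x‖ := by
  have := lp.norm_apply_le_norm (E := fun _ : I => ℝ) (p := 1) (by simp) x i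
  simpa using this

section single

variable [DecidableEq I]

/-- the multiple `t` of the basis vector at `i` -/
def sgl (i : I) (t : ℝ) : L1 I := lp.single (E := fun _ : I => ℝ) 1 i t

theorem sgl_self (i : I) (t : ℝ) : sgl i t i = t := lp.single_apply_self (E := fun _ : I => ℝ) 1 i t

theorem sgl_ne {i j : I} (h : j ≠ i) (t : ℝ) : sgl i t j = 0 :=
  lp.single_apply_ne (E := fun _ : I => ℝ) 1 i t h

theorem norm_sgl (i : I) (t : ℝ) : ‖sgl i t‖ = |t| := by
  have := lp.norm_single (E := fun _ : I => ℝ) (p := 1) (by simp) i t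
  simp [sgl]

theorem sgl_sub (i : I) (s t : ℝ) : sgl i (s - t) = sgl i s - sgl i t :=
  lp.single_sub (E := fun _ : I => ℝ) 1 i s t

theorem sgl_zero (i : I) : sgl i 0 = 0 := lp.single_zero (E := fun _ : I => ℝ) 1 i

theorem sgl_mem_spt {S : Set I} {i : I} (hi : i ∈ S) (t : ℝ) : sgl i t ∈ spt S := by
  intro j hj
  exact sgl_ne (fun h => hj (by rw [h]; exact hi)) t

/-- the coordinate decomposition of a vector at `i` -/
theorem split_single (x : L1 I) (i : I) : ∃ z : L1 I, z i = 0 ∧ x = z + sgl i (x i) ∧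
    ∀ j, j ≠ i → z j = x j := by
  refine ⟨x - sgl i (x i), ?_, by abel, ?_⟩
  · simp [sgl_self]
  · intro j hj
    simp [sgl_ne hj]

theorem norm_add_single {z : L1 I} {i : I} (hz : z i = 0) (t : ℝ) :
    ‖z + sgl i t‖ = ‖z‖ + |t| := by
  rw [norm_add_of_disjoint, norm_sgl]
  intro j
  by_cases h : j = i
  · left
    rw [h, hz]
  · right
    exact sgl_ne h t

theorem norm_single_sub {z : L1 I} {i : I} (hz : z i = 0) (t : ℝ) :
    ‖sgl i t - z‖ = |t| + ‖z‖ := by
  have h : ‖(-z) + sgl i t‖ = ‖-z‖ + |t| := norm_add_single (by simp [hz]) t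
  rw [norm_neg] at h
  rw [← add_comm ‖z‖, ← h]
  congr 1
  abel

/-- lower bound for the distance to a multiple of a basis vector -/
theorem norm_sgl_sub_ge (a : L1 I) (i : I) (t : ℝ) :
    t + ‖a‖ - 2 * |a i| ≤ ‖sgl i t - a‖ := by
  obtain ⟨z, hz, hx, _⟩ := split_single a i
  have h1 : sgl i t - a = sgl i (t - a i) - z := by
    rw [sgl_sub]
    nth_rewrite 1 [hx]
    abel
  have h2 : ‖a‖ = ‖z‖ + |a i| := by
    conv_lhs => rw [hx]
    exact norm_add_single hz _
  rw [h1, norm_single_sub hz, h2]
  have h3 : t - |a i| ≤ |t - a i| := by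
    have := le_abs_self (t - a i)
    have := le_abs_self (a i)
    linarith
  linarith

end single

/-- finitely supported vectors -/
theorem exists_finset_norm_sub_lt (x : L1 I) {ε : ℝ} (hε : 0 < ε) :
    ∃ F : Finset I, ‖x - proj (F : Set I) x‖ < ε := by
  classical
  have h := lp.hasSum_single (E := fun _ : I => ℝ) (p := 1) (by simp) x
  have h2 := (Metric.tendsto_nhds.1 h) ε hε
  obtain ⟨F, hF⟩ := Filter.eventually_atTop.1 h2
  refine ⟨F, ?_⟩
  have h3 := hF F le_rfl
  have h4 : (∑ i ∈ F, lp.single (E := fun _ : I => ℝ) 1 i (x i)) = proj (F : Set I) x := by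
    ext j
    rw [lp.coeFn_sum, Finset.sum_apply]
    by_cases hj : j ∈ F
    · rw [proj_apply_mem x (by simpa using hj), Finset.sum_eq_single j]
      · exact lp.single_apply_self (E := fun _ : I => ℝ) 1 j (x j)
      · intro b _ hb
        exact lp.single_apply_ne (E := fun _ : I => ℝ) 1 b (x b) (Ne.symm hb)
      · intro hn
        exact absurd hj hn
    · rw [proj_apply_notMem x (by simpa using hj), Finset.sum_eq_zero]
      intro b hb
      exact lp.single_apply_ne (E := fun _ : I => ℝ) 1 b (x b) (fun h => hj (h ▸ hb))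
  rw [h4, dist_eq_norm] at h3
  rwa [norm_sub_rev]

end

end Pool.Agent.H30MS
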